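import Pool.Agent.V11278.Rect.Corner

/-!
# Three-term progressions and congruence modular varieties

Let `G` be a finite abelian group of odd order and let `A ⊆ G` contain no nontrivial three-term
progression.  Suppose that the three copies of `G` carry arbitrary algebra structures (not related to
the addition) with directed Gumm operations `d 0, …, d (L - 1), q`, `L` arbitrary, such that the relation
`{(x, y, x + y) : x + 2 y ∈ A}`, the relation of the progressions, is closed under the componentwise
operations.  Then `A` has at most one element.  In other words, a set with two or more elements whose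
relation has such operations contains a nontrivial progression.  The same holds for sets of integers
in `[1, N]`, with the relation modulo `2 N + 1`.  For other invariant equations
`(l - m) X + m Y = l Z` the sets have at most `|G|^{1/2}` elements.

By a theorem of Kazda, Kozik, McKenzie and Moore the algebras of a variety have directed Gumm terms
for some `L` if and only if the variety is congruence modular.

Proof.  The set `{(x, y) : l x + m y ∈ A}` is corner-free, so two elements `y`, `z` of the second and third
copy of `G` have at most one common neighbour (`V11278.Rect.common_unique`).  For `y = 0` this says that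
the map `(a, b) ↦ l b - (l - m) a` is injective on `A × A`.  For `l = 1`, `m = 2` it is `a + b`, which is
symmetric.
-/

set_option autoImplicit false

namespace Pool.Agent.Results.MP_0f71ae_nt.CongruenceModular

open Finset Pool.Agent.V11278.Rect

/-- The relation `{(x, y, x + y) : l x + m y ∈ A}`. -/
def rel {G : Type} [AddCommGroup G] [Fintype G] [DecidableEq G] (l m : ℤ) (A : Finset G) :
    Finset (G × G × G) :=
  univ.filter fun t => t.2.2 = t.1 + t.2.1 ∧ l • t.1 + m • t.2.1 ∈ A

/-- There are directed Gumm operations on the three copies of `G`, of some length `L`, such that `R` is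
closed under the componentwise operations. -/
def HasGumm {G : Type} (R : Finset (G × G × G)) : Prop :=
  ∃ (L : ℕ) (dX dY dZ : ℕ → G → G → G → G) (qX qY qZ : G → G → G → G),
    DirectedGumm L dX qX ∧ DirectedGumm L dY qY ∧ DirectedGumm L dZ qZ ∧
    (∀ l < L, ClosedUnder (dX l) (dY l) (dZ l) R) ∧ ClosedUnder qX qY qZ R

/-- the corner-free set -/
def cor {G : Type} [AddCommGroup G] [Fintype G] [DecidableEq G] (l m : ℤ) (A : Finset G) :
    Finset (G × G) := univ.filter fun p => l • p.1 + m • p.2 ∈ A

lemma rel_eq {G : Type} [AddCommGroup G] [Fintype G] [DecidableEq G] (l m : ℤ) (A : Finset G) :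
    rel l m A = triples (cor l m A) := by
  ext ⟨x, y, z⟩
  rw [mem_triples]
  unfold rel cor
  simp only [mem_filter, mem_univ, true_and]
  exact and_comm

lemma cor_free {G : Type} [AddCommGroup G] [Fintype G] [DecidableEq G] {l m : ℤ} {A : Finset G}
    (hA : ∀ a d : G, a ∈ A → a + m • d ∈ A → a + l • d ∈ A → d = 0) : CornerFree (cor l m A) := by
  intro x y z h1 h2 h3
  unfold cor at h1 h2 h3
  simp only [mem_filter, mem_univ, true_and] at h1 h2 h3
  refine hA _ z h1 ?_ ?_
  · have : l • x + m • y + m • z = l • x + m • (y + z) := by rw [smul_add]; abel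
    rw [this]; exact h2
  · have : l • x + m • y + l • z = l • (x + z) + m • y := by rw [smul_add]; abel
    rw [this]; exact h3

/-- Uniqueness: `x` is determined by `z` if `l x ∈ A` and `l x + m (z - x) ∈ A`. -/
lemma uniq {G : Type} [AddCommGroup G] [Fintype G] [DecidableEq G] {l m : ℤ} {A : Finset G}
    (hA : ∀ a d : G, a ∈ A → a + m • d ∈ A → a + l • d ∈ A → d = 0)
    (hR : HasGumm (rel l m A)) (z x x' : G) (h1 : l • x ∈ A) (h2 : l • x + m • (z - x) ∈ A)
    (h1' : l • x' ∈ A) (h2' : l • x' + m • (z - x') ∈ A) : x = x' := by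
  obtain ⟨L, dX, dY, dZ, qX, qY, qZ, hX, hY, hZ, hd, hq⟩ := hR
  rw [rel_eq] at hq
  have hd' : ∀ l' < L, ClosedUnder (dX l') (dY l') (dZ l') (triples (cor l m A)) := by
    intro l' hl'
    have := hd l' hl'
    rwa [rel_eq] at this
  obtain ⟨x1, hx1⟩ := common_unique (cor_free hA) hX hY hZ hd' hq 0 z
  have mem : ∀ u v : G, l • u + m • v ∈ A → (u, v) ∈ cor l m A := fun u v h => by
    unfold cor
    exact mem_filter.2 ⟨mem_univ _, h⟩
  have e : ∀ u : G, l • u ∈ A → l • u + m • (z - u) ∈ A → u = x1 := fun u g1 g2 =>
    hx1 u (mem u 0 (by rw [smul_zero, add_zero]; exact g1)) (mem u _ g2)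
  rw [e x h1 h2, e x' h1' h2']

lemma surj {G : Type} [AddCommGroup G] [Fintype G] {l : ℤ} (hl : ∀ x : G, l • x = 0 → x = 0) (a : G) :
    ∃ x : G, l • x = a := by
  have hinj : Function.Injective (fun x : G => l • x) := by
    intro x y hxy
    have h : l • (x - y) = 0 := by
      rw [smul_sub]; exact sub_eq_zero.2 hxy
    exact sub_eq_zero.1 (hl _ h)
  exact (Finite.surjective_of_injective hinj) a

theorem general {G : Type} [AddCommGroup G] [Fintype G] [DecidableEq G] {l m : ℤ} {A : Finset G}
    (hl : ∀ x : G, l • x = 0 → x = 0) (hm : ∀ x : G, m • x = 0 → x = 0)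
    (hA : ∀ a d : G, a ∈ A → a + m • d ∈ A → a + l • d ∈ A → d = 0)
    (hR : HasGumm (rel l m A)) : A.card ^ 2 ≤ Fintype.card G := by
  classical
  choose X hX using surj hl
  choose Z hZ using fun p : G × G => surj hm (p.2 - p.1 + m • X p.1)
  have h2 : ∀ p : G × G, l • X p.1 + m • (Z p - X p.1) = p.2 := by
    intro p
    rw [smul_sub, hZ, hX]
    abel
  have hinj : Set.InjOn Z ((A ×ˢ A : Finset (G × G)) : Set (G × G)) := by
    rintro p hp p' hp' hpp
    rw [mem_coe, mem_product] at hp hp'
    have e1 : X p.1 = X p'.1 := uniq hA hR (Z p) _ _ (by rw [hX]; exact hp.1) (by rw [h2]; exact hp.2)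
      (by rw [hX]; exact hp'.1) (by rw [hpp, h2]; exact hp'.2)
    have e2 : p.1 = p'.1 := by rw [← hX p.1, ← hX p'.1, e1]
    have e3 : p.2 = p'.2 := by rw [← h2 p, ← h2 p', e1, hpp]
    exact Prod.ext e2 e3
  have h3 : (A ×ˢ A).card ≤ (univ : Finset G).card :=
    card_le_card_of_injOn Z (fun _ _ => mem_univ _) hinj
  rw [card_product, card_univ] at h3
  rw [sq]
  exact h3

theorem three {G : Type} [AddCommGroup G] [Fintype G] [DecidableEq G] {A : Finset G}
    (h2 : ∀ x : G, x + x = 0 → x = 0)
    (hA : ∀ a d : G, a ∈ A → a + d ∈ A → a + d + d ∈ A → d = 0)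
    (hR : HasGumm (rel 1 2 A)) : A.card ≤ 1 := by
  have h2' : ∀ x : G, (2 : ℤ) • x = 0 → x = 0 := fun x hx => h2 x (by rwa [two_smul] at hx)
  rw [card_le_one]
  intro a ha b hb
  obtain ⟨z, hz⟩ := surj h2' (a + b)
  have e : ∀ u : G, (1 : ℤ) • u + (2 : ℤ) • (z - u) = a + b - u := by
    intro u
    rw [one_smul, smul_sub, hz, two_smul]
    abel
  refine uniq (l := 1) (m := 2) (fun a d g1 g2 g3 => hA a d g1 (by rwa [one_smul] at g3)
    (by rwa [two_smul, ← add_assoc] at g2)) hR z a b ?_ ?_ ?_ ?_
  · rw [one_smul]; exact ha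
  · rw [e, add_sub_cancel_left]; exact hb
  · rw [one_smul]; exact hb
  · rw [e, add_sub_cancel_right]; exact ha

lemma cast_inj {N a b : ℕ} (ha : a < 2 * N + 1) (hb : b < 2 * N + 1)
    (h : (a : ZMod (2 * N + 1)) = b) : a = b := by
  rw [ZMod.natCast_eq_natCast_iff] at h
  exact Nat.ModEq.eq_of_lt_of_lt h ha hb

theorem integers {N : ℕ} {A : Finset ℕ} (hAN : A ⊆ Icc 1 N)
    (hA : ∀ a d : ℕ, a ∈ A → a + d ∈ A → a + 2 * d ∈ A → d = 0)
    (hR : HasGumm (rel 1 2 (A.image (fun a : ℕ => (a : ZMod (2 * N + 1)))))) : A.card ≤ 1 := by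
  classical
  have hlt : ∀ a ∈ A, a ≤ N := fun a ha => (mem_Icc.1 (hAN ha)).2
  have key := three (G := ZMod (2 * N + 1)) (A := A.image (fun a : ℕ => (a : ZMod (2 * N + 1))))
    (by
      intro x hx
      have h1 : ((N + 1 : ℕ) : ZMod (2 * N + 1)) * (x + x) = x := by
        have h3 : ((2 * N + 1 : ℕ) : ZMod (2 * N + 1)) = 0 := ZMod.natCast_self _
        push_cast at h3 ⊢
        linear_combination x * h3
      rw [← h1, hx, mul_zero])
    (by
      intro a d ha hb hc
      obtain ⟨a', ha', rfl⟩ := mem_image.1 ha
      obtain ⟨b', hb', hb2⟩ := mem_image.1 hb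
      obtain ⟨c', hc', hc2⟩ := mem_image.1 hc
      have h1 : ((a' + c' : ℕ) : ZMod (2 * N + 1)) = ((b' + b' : ℕ) : ZMod (2 * N + 1)) := by
        push_cast
        rw [hb2, hc2]
        ring
      have g1 := hlt a' ha'
      have g2 := hlt b' hb'
      have g3 := hlt c' hc'
      have h2 : a' + c' = b' + b' := cast_inj (by omega) (by omega) h1
      have h3 : a' = b' := by
        rcases Nat.le_total a' b' with h | h
        · have := hA a' (b' - a') ha' (by rwa [Nat.add_sub_cancel' h])
            (by have : a' + 2 * (b' - a') = c' := by omega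
                rwa [this])
          omega
        · have := hA c' (b' - c') hc' (by have : c' + (b' - c') = b' := by omega
                                          rwa [this])
            (by have : c' + 2 * (b' - c') = a' := by omega
                rwa [this])
          omega
      subst h3
      have : (a' : ZMod (2 * N + 1)) = a' + d := hb2
      have h4 : (a' : ZMod (2 * N + 1)) + 0 = a' + d := by rw [add_zero]; exact this
      exact (add_left_cancel h4).symm) hR
  rwa [card_image_of_injOn] at key
  intro a ha b hb hab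
  have g1 := hlt a ha
  have g2 := hlt b hb
  exact cast_inj (by omega) (by omega) hab

/-- **Theorem.** (1) `G` of odd order: a set without nontrivial three-term progressions whose relation
`{(x, y, x + y) : x + 2 y ∈ A}` is closed under directed Gumm operations has at most one element.
(2) The same for sets of integers in `[1, N]`, with the relation modulo `2 N + 1`.  (3) For the invariant
equations in three variables, `(l - m) X + m Y = l Z`, such sets have at most `|G|^{1/2}` elements. -/
theorem result :
    (∀ (G : Type) [AddCommGroup G] [Fintype G] [DecidableEq G] (A : Finset G),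
      (∀ x : G, x + x = 0 → x = 0) →
      (∀ a d : G, a ∈ A → a + d ∈ A → a + d + d ∈ A → d = 0) →
      HasGumm (rel 1 2 A) → A.card ≤ 1) ∧
    (∀ (N : ℕ) (A : Finset ℕ), A ⊆ Icc 1 N →
      (∀ a d : ℕ, a ∈ A → a + d ∈ A → a + 2 * d ∈ A → d = 0) →
      HasGumm (rel 1 2 (A.image (fun a : ℕ => (a : ZMod (2 * N + 1))))) → A.card ≤ 1) ∧
    (∀ (G : Type) [AddCommGroup G] [Fintype G] [DecidableEq G] (l m : ℤ) (A : Finset G),
      (∀ x : G, l • x = 0 → x = 0) → (∀ x : G, m • x = 0 → x = 0) →
      (∀ a d : G, a ∈ A → a + m • d ∈ A → a + l • d ∈ A → d = 0) →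
      HasGumm (rel l m A) → A.card ^ 2 ≤ Fintype.card G) :=
  ⟨fun _ _ _ _ _ h2 hA hR => three h2 hA hR, fun _ _ hAN hA hR => integers hAN hA hR,
    fun _ _ _ _ _ _ _ hl hm hA hR => general hl hm hA hR⟩

end Pool.Agent.Results.MP_0f71ae_nt.CongruenceModular
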