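import Pool.Agent.H64.L3.Line
import Pool.Agent.Helper12.LocPat

/-!
# Progression-free sets of integers given by formulas of depth three on the digits

Let `p ≥ 3` be a prime and `N = p ^ m`.  The integers in `[0, N)` are given by their `m` digits in base
`p`, considered as elements of the field `F_p`.  A *constraint of width `k`* is a condition which
depends only on the values of `k` linear forms over `F_p` in the digits; the forms and the condition
are arbitrary.  We consider the sets `A ⊆ [0, N)` which are unions of `M` sets, each of them given by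
the conjunction of an arbitrary family of constraints of width `k` (formulas of depth three whose bottom
gates see `k` linear forms; the number of constraints is not bounded).

If such a set contains no three-term arithmetic progression, or only no `p`-term progression whose
difference has digits `0` and `1` only, then it has at most `C M N ^ (1 - γ)` elements, with
`γ = γ (p, k) > 0`.  So there is no Behrend phenomenon in this model, and the extremal
three-term progression free sets in `[0, p ^ m)` need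
`M ≥ N ^ γ exp (- 4 √log N) / C` formulas.
-/

set_option autoImplicit false

namespace Pool.Agent.Results.MP_0f71ae_nt.DepthThreeFormulas

open Finset Pool.Agent.Helper12.LocBic

/-- The digits in base `p` of `a`, as elements of `F_p` (the digit of weight `p ^ i` at the place
`i`). -/
def dig (p m : ℕ) (a : ℕ) : Fin m → ZMod p := fun i => ((a / p ^ i.val : ℕ) : ZMod p)

/-- A constraint of width `k`: a condition `φ` on the digits which depends only on the values of `k`
linear forms over `F_p`. -/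
def IsConstraint (p k m : ℕ) (φ : (Fin m → ZMod p) → Prop) : Prop :=
  ∃ l : Fin k → ((Fin m → ZMod p) →ₗ[ZMod p] ZMod p), ∀ z z', (∀ i, l i z = l i z') → (φ z ↔ φ z')

/-- A conjunction of an arbitrary family `Φ` of constraints of width `k`. -/
def IsConj (p k m : ℕ) (F : (Fin m → ZMod p) → Prop) : Prop :=
  ∃ Φ : Set ((Fin m → ZMod p) → Prop), (∀ φ ∈ Φ, IsConstraint p k m φ) ∧ ∀ z, F z ↔ ∀ φ ∈ Φ, φ z

/-- `A` is a set of integers in `[0, p ^ m)`, and such an integer belongs to `A` if and only if its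
digits satisfy one of `M` conjunctions of constraints of width `k`. -/
def GivenBy (p k m M : ℕ) (A : Finset ℕ) : Prop :=
  (∀ a ∈ A, a < p ^ m) ∧ ∃ F : Fin M → (Fin m → ZMod p) → Prop, (∀ i, IsConj p k m (F i)) ∧
    ∀ a, a < p ^ m → (a ∈ A ↔ ∃ i, F i (dig p m a))

/-- The exponent `γ (p, k) = log (p ^ k / (p ^ k - 1)) / ((k (k + 1) / 2) p log p)`. -/
noncomputable def γ (p k : ℕ) : ℝ :=
  Real.log ((p : ℝ) ^ k / ((p : ℝ) ^ k - 1)) / ((k * (k + 1) / 2 : ℕ) * p * Real.log p)

/-- The constant `C (p, k) = p ^ γ p ^ k / (p ^ k - 1)`. -/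
noncomputable def C (p k : ℕ) : ℝ :=
  (p : ℝ) ^ γ p k * ((p : ℝ) ^ k / ((p : ℝ) ^ k - 1))

theorem gam_eq (p k : ℕ) : gam p k / p = γ p k := by
  unfold gam lam γ
  rw [div_div]
  congr 1
  ring

theorem bound {p k m M : ℕ} (hp : p.Prime) (hk : 1 ≤ k) (A : Finset ℕ) (hA : GivenBy p k m M A)
    (hfree : ∀ a d : ℕ, 0 < d → (∀ i, d / p ^ i % p ≤ 1) → ¬ ∀ t < p, a + t * d ∈ A) :
    (A.card : ℝ) ≤ C p k * M * ((p : ℝ) ^ m) ^ (1 - γ p k) := by
  classical
  have : Fact p.Prime := ⟨hp⟩
  obtain ⟨hAlt, F, hF, hAF⟩ := hA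
  have hdig : ∀ a, dig p m a = H64.L3.dig p m a := fun a => rfl
  set B : Finset (Fin m → ZMod p) := A.image (dig p m) with hB
  have hBcard : B.card = A.card := by
    rw [hB]
    apply Finset.card_image_of_injOn
    intro a ha a' ha' h
    exact H64.L3.dig_inj a a' (hAlt a ha) (hAlt a' ha') h
  have hBF : ∀ q, q ∈ B ↔ ∃ i, F i q := by
    intro q
    constructor
    · intro hq
      obtain ⟨a, ha, rfl⟩ := Finset.mem_image.1 hq
      exact (hAF a (hAlt a ha)).1 ha
    · rintro ⟨i, hi⟩
      have h1 : dig p m (H64.L3.nval q) = q := H64.L3.dig_nval q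
      refine Finset.mem_image.2 ⟨H64.L3.nval q, ?_, h1⟩
      exact (hAF _ (H64.L3.nval_lt q)).2 ⟨i, by rw [h1]; exact hi⟩
  have hmain := pattern_bound (m := m) (b := p) hk hp.one_lt.le B F (fun i => hF i) hBF (by
    intro y W D hD hm hW
    rw [Module.finrank_fintype_fun_eq_card, Fintype.card_fin] at hD
    obtain ⟨x, e, he0, he, hx, hline⟩ := H64.L3.line W y D hD hm
    refine hfree (H64.L3.nval x) (H64.L3.nval e) (H64.L3.nval_pos e he0)
      (H64.L3.nval_digits e he) fun t ht => ?_
    rw [← H64.L3.nval_line x e he hx t ht]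
    obtain ⟨w, hw, hxw⟩ := hline (t : ZMod p)
    rw [hxw]
    have h1 := hW w hw
    obtain ⟨a, ha, hae⟩ := Finset.mem_image.1 h1
    have h2 : H64.L3.nval (y + w) = a := by
      rw [← hae]
      exact H64.L3.nval_dig a (hAlt a ha)
    rw [h2]
    exact ha)
  rw [hBcard] at hmain
  have hp0 : (0 : ℝ) < p := by exact_mod_cast hp.pos
  have h2k : (1 : ℝ) < (p : ℝ) ^ k := by
    have : 1 < p ^ k := Nat.one_lt_pow (by omega) hp.one_lt
    exact_mod_cast this
  refine hmain.trans (le_of_eq ?_)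
  rw [gam_eq, lam, Real.exp_log (div_pos (by positivity) (by linarith)), Fintype.card_fun, ZMod.card,
    Fintype.card_fin]
  unfold C
  rw [show (1 : ℝ) - γ p k = -(γ p k) + 1 by ring, Real.rpow_add (by positivity), Real.rpow_one]
  push_cast
  ring

theorem γ_pos {p k : ℕ} (hp : p.Prime) (hk : 1 ≤ k) : 0 < γ p k := by
  rw [← gam_eq]
  have hp0 : (0 : ℝ) < p := by exact_mod_cast hp.pos
  exact div_pos (gam_pos hp hk) hp0

theorem C_pos {p k : ℕ} (hp : p.Prime) (hk : 1 ≤ k) : 0 < C p k := by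
  have hp0 : (0 : ℝ) < p := by exact_mod_cast hp.pos
  have h2k : (1 : ℝ) < (p : ℝ) ^ k := by
    have : 1 < p ^ k := Nat.one_lt_pow (by omega) hp.one_lt
    exact_mod_cast this
  unfold C
  exact mul_pos (Real.rpow_pos_of_pos hp0 _) (div_pos (by positivity) (by linarith))

/-- **Result.**  Let `p` be a prime and `k ≥ 1`; `γ = γ (p, k) > 0`, `C = C (p, k) > 0`, `N = p ^ m`.

(1) If a set `A ⊆ [0, N)` given by `M` conjunctions of constraints of width `k` contains no
progression `a, a + d, …, a + (p - 1) d` with `d > 0` such that all digits of `d` are `0` or `1`, then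
`|A| ≤ C M N ^ (1 - γ)`.

(2) If `p ≥ 3`, this holds for the sets `A` without three-term progressions.

(3) If `p ≥ 3` and `A` is a set without three-term progressions with the maximal number
`r_3 (N)` of elements, given by `M` conjunctions of constraints of width `k`, then
`C M ≥ N ^ γ exp (- 4 √log N)`. -/
theorem result {p k : ℕ} (hp : p.Prime) (hk : 1 ≤ k) :
    0 < γ p k ∧ 0 < C p k ∧
    (∀ (m M : ℕ) (A : Finset ℕ), GivenBy p k m M A →
      (∀ a d : ℕ, 0 < d → (∀ i, d / p ^ i % p ≤ 1) → ¬ ∀ t < p, a + t * d ∈ A) →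
      (A.card : ℝ) ≤ C p k * M * ((p : ℝ) ^ m) ^ (1 - γ p k)) ∧
    (3 ≤ p → ∀ (m M : ℕ) (A : Finset ℕ), GivenBy p k m M A → ThreeAPFree (A : Set ℕ) →
      (A.card : ℝ) ≤ C p k * M * ((p : ℝ) ^ m) ^ (1 - γ p k)) ∧
    (3 ≤ p → ∀ (m M : ℕ) (A : Finset ℕ), GivenBy p k m M A → ThreeAPFree (A : Set ℕ) →
      A.card = rothNumberNat (p ^ m) →
      ((p : ℝ) ^ m) ^ γ p k * Real.exp (-4 * Real.sqrt (Real.log ((p : ℝ) ^ m))) ≤ C p k * M) := by
  have h2 : 3 ≤ p → ∀ (m M : ℕ) (A : Finset ℕ), GivenBy p k m M A → ThreeAPFree (A : Set ℕ) →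
      (A.card : ℝ) ≤ C p k * M * ((p : ℝ) ^ m) ^ (1 - γ p k) := by
    intro hp3 m M A hA hfree
    refine bound hp hk A hA fun a d hd _ hcon => ?_
    have h0 := hcon 0 (by omega)
    have h1 := hcon 1 (by omega)
    have h2 := hcon 2 (by omega)
    simp only [zero_mul, add_zero, one_mul] at h0 h1
    have := hfree (mem_coe.2 h0) (mem_coe.2 h1) (mem_coe.2 h2) (by ring)
    omega
  refine ⟨γ_pos hp hk, C_pos hp hk, fun m M A hA hfree => bound hp hk A hA hfree, h2, ?_⟩
  intro hp3 m M A hA hfree hcard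
  have h3 := h2 hp3 m M A hA hfree
  have hp0 : (0 : ℝ) < (p : ℝ) ^ m := by
    have : (0 : ℝ) < p := by exact_mod_cast hp.pos
    positivity
  have h4 : ((p ^ m : ℕ) : ℝ) * Real.exp (-4 * Real.sqrt (Real.log ((p ^ m : ℕ) : ℝ))) ≤
      rothNumberNat (p ^ m) := Behrend.roth_lower_bound
  rw [← hcard] at h4
  push_cast at h4
  have h5 := h4.trans h3
  have h6 : ((p : ℝ) ^ m) ^ (1 - γ p k) * ((p : ℝ) ^ m) ^ γ p k = (p : ℝ) ^ m := by
    rw [← Real.rpow_add hp0, show 1 - γ p k + γ p k = 1 by ring, Real.rpow_one]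
  have h7 : 0 < ((p : ℝ) ^ m) ^ (1 - γ p k) := Real.rpow_pos_of_pos hp0 _
  refine le_of_mul_le_mul_left ?_ h7
  calc ((p : ℝ) ^ m) ^ (1 - γ p k) * (((p : ℝ) ^ m) ^ γ p k *
        Real.exp (-4 * Real.sqrt (Real.log ((p : ℝ) ^ m))))
      = (p : ℝ) ^ m * Real.exp (-4 * Real.sqrt (Real.log ((p : ℝ) ^ m))) := by
        rw [← mul_assoc, h6]
    _ ≤ C p k * M * ((p : ℝ) ^ m) ^ (1 - γ p k) := h5
    _ = ((p : ℝ) ^ m) ^ (1 - γ p k) * (C p k * M) := by ring

end Pool.Agent.Results.MP_0f71ae_nt.DepthThreeFormulas
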