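import Pool.Agent.V11163.LF.Dig

/-!
# Three-term progressions: sets whose digits are read by tree tensor networks, in any order

A tree tensor network `Net K (Fin n) (Fin b) W` (`Pool/Agent/TH700/PA/Defs.lean`) has leaves that read
one digit each (with a vector in `K ^ W` for each value of the digit); an inner node combines the vectors
of its two children by an arbitrary bilinear map; the value is a linear form of the vector of the root.
The field `K`, the weights, the tree and the order of the digits are arbitrary, so there may be
cancellations; the bond dimension is `card W`. The network recognizes the set of the words of digits with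
a nonzero value (`Recog w`: a network of bond dimension at most `w` that reads every digit at most once).

**Theorem.** Let `b ≥ 3`, `N = b ^ n`, and let `A ⊆ [0, N)` be a union of `M` sets whose words of digits
are recognized with bond dimension at most `w`. There are `c, C > 0`, which depend on `b` and `w` only,
such that `|A| ≤ C M N ^ (1 - c)` if `A` is free of three-term progressions; for extremal sets,
`|A| = r_3 (N)`, we have `C M ≥ N ^ c exp (- 4 √(log N))` (Behrend). The same bound (with `c, C`
depending on `m`, too, and for all `b ≥ 2`) holds if `A` contains no `m`-dimensional grid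
`{a + j_1 d_1 + ... + j_m d_m : 0 ≤ j_i < b}` where the `d_i` have digits `0` and `1` with disjoint
supports.

**Proof.** There are many disjoint blocks of `L` digits for which the network has rank at most `w ^ 3`;
the words on such a block that can be completed to an element of `A` are covered by `w ^ 3` sections
of `A` (interpolation), and these contain no combinatorial subspace, so they have small density by
the density Hales-Jewett theorem (library). The blocks are independent.
-/

set_option autoImplicit false

open Finset

namespace Pool.Agent.Results.MP_0f71ae_nt.TensorNetworks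

open Pool.Agent.V11163.LF

theorem result :
    -- (1) sets without grids with differences with digits 0 and 1
    (∀ b m w : ℕ, 2 ≤ b → ∃ c C : ℝ, 0 < c ∧ 0 < C ∧
      ∀ (n M : ℕ) (A : Finset ℕ) (B : Fin M → Set ℕ), (∀ a ∈ A, a < b ^ n) →
        NoGrid m b n (A : Set ℕ) → (∀ a, a ∈ A ↔ ∃ i, a ∈ B i) →
        (∀ i, Recog w (Words b n (B i))) → (A.card : ℝ) ≤ C * M * ((b : ℝ) ^ n) ^ (1 - c)) ∧
    -- (2) sets without three-term progressions, and extremal sets
    (∀ b w : ℕ, 3 ≤ b → ∃ c C : ℝ, 0 < c ∧ 0 < C ∧
      ∀ (n M : ℕ) (A : Finset ℕ) (B : Fin M → Set ℕ), (∀ a ∈ A, a < b ^ n) →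
        ThreeAPFree (A : Set ℕ) → (∀ a, a ∈ A ↔ ∃ i, a ∈ B i) →
        (∀ i, Recog w (Words b n (B i))) →
        (A.card : ℝ) ≤ C * M * ((b : ℝ) ^ n) ^ (1 - c) ∧
        (A.card = rothNumberNat (b ^ n) →
          ((b : ℝ) ^ n) ^ c * Real.exp (-4 * √(Real.log ((b : ℝ) ^ n))) ≤ C * M)) := by
  refine ⟨fun b m w hb => dig_le b m w hb, fun b w hb => ?_⟩
  obtain ⟨c, C, hc, hC, h⟩ := dig_le b 1 w (by omega)
  refine ⟨c, C, hc, hC, fun n M A B hAn hA hAB hB => ?_⟩
  have h1 := h n M A B hAn (noGrid_of_threeAPFree hb hA) hAB hB
  refine ⟨h1, fun hcard => ?_⟩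
  have h2 := Behrend.roth_lower_bound (N := b ^ n)
  rw [← hcard] at h2
  push_cast at h2
  have h3 := h2.trans h1
  obtain ⟨N, hN⟩ : ∃ N : ℝ, N = (b : ℝ) ^ n := ⟨_, rfl⟩
  have hN0 : 0 < N := by
    rw [hN]
    have : (0 : ℝ) < b := by exact_mod_cast (show 0 < b by omega)
    positivity
  rw [← hN] at h3 ⊢
  have h4 : N = N ^ (1 - c) * N ^ c := by
    rw [← Real.rpow_add hN0]
    simp
  have hp : 0 < N ^ (1 - c) := Real.rpow_pos_of_pos hN0 _
  refine le_of_mul_le_mul_left ?_ hp
  calc N ^ (1 - c) * (N ^ c * Real.exp (-4 * √(Real.log N)))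
      = (N ^ (1 - c) * N ^ c) * Real.exp (-4 * √(Real.log N)) := by ring
    _ = N * Real.exp (-4 * √(Real.log N)) := by rw [← h4]
    _ ≤ C * M * N ^ (1 - c) := h3
    _ = _ := by ring

end Pool.Agent.Results.MP_0f71ae_nt.TensorNetworks
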